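import Pool.Agent.Y560.TF.Stm

/-!
Project TF, step C1: finitely many big classes over a point.
-/

set_option autoImplicit false

namespace Pool.Agent.Y692.TF

open Set MeasureTheory
open Pool.Agent.Y560.TF
open Pool.Agent.H899R2.VP (St Adj PIso BF IsoOn idOn inv comp zipSet BF_iff)
open Pool.Agent.H533R2.VO (RS lift put OS Ic RIso Dich VC BlkV S_FINAL)
open Pool.Agent.H566P (ar R2 v2 a0 a1 lt ac co mk S_ACC S_MSG)
open Pool.Agent.Y560.TG (acc msg lt_mk ac_mk co_mk R2_ext piso_iff riso_iff riso_isoOn meas_lt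
  meas_ac meas_co meas_into cont_into piso_lt piso_ac piso_co piso_eq ex lt_ex ac_ex co_ex_even
  co_ex_odd piso_ex orb orb_ex Nm Off Sm Thin Few bf_trans0 bf_symm0 iso_trans0 iso_symm0
  iso_refl0 S_EXT S_GL S_MAT S_BP mat pick Se)

lemma bf_map {M N M' N' : St ar} {X Y : Set ℕ}
    (h : ∀ q, q ⊆ X ×ˢ Y → PIso M N q → PIso M' N' q) (o : Ordinal.{0}) :
    ∀ p : Set (ℕ × ℕ), p ⊆ X ×ˢ Y → BF M N X Y o p → BF M' N' X Y o p := by
  induction o using WellFoundedLT.induction with
  | ind o ih =>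
    intro p hp hb
    rw [BF_iff] at hb ⊢
    have hins : ∀ x y, x ∈ X → y ∈ Y → insert (x, y) p ⊆ X ×ˢ Y :=
      fun x y hx hy => insert_subset ⟨hx, hy⟩ hp
    refine ⟨h p hp hb.1, fun o' ho' => ⟨fun x hx => ?_, fun y hy => ?_⟩⟩
    · obtain ⟨y, hy, hxy⟩ := (hb.2 o' ho').1 x hx
      exact ⟨y, hy, ih o' ho' _ (hins x y hx hy) hxy⟩
    · obtain ⟨x, hx, hxy⟩ := (hb.2 o' ho').2 y hy
      exact ⟨x, hx, ih o' ho' _ (hins x y hx hy) hxy⟩

lemma iso_map {M N M' N' : St ar} {X Y : Set ℕ}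
    (h : ∀ q, q ⊆ X ×ˢ Y → PIso M N q → PIso M' N' q) (hi : IsoOn M N X Y ∅) :
    IsoOn M' N' X Y ∅ := by
  obtain ⟨q, h1, h2, h3, h4, h5⟩ := hi
  exact ⟨q, h1, h2, h q h2 h3, h4, h5⟩

/-- reducts -/
lemma iso_red {P P' : ℕ → ℕ → Prop} {R R' : R2} {X Y : Set ℕ} {p : Set (ℕ × ℕ)}
    (h : IsoOn (lift (ex P R)) (lift (ex P' R')) X Y p) :
    IsoOn (lift R) (lift R') X Y ∅ :=
  iso_map (fun _ _ hq => (piso_ex.1 hq).1) (h.mono (empty_subset _))

lemma bf_red {P P' : ℕ → ℕ → Prop} {R R' : R2} {X Y : Set ℕ} {p : Set (ℕ × ℕ)} {o : Ordinal.{0}}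
    (h : BF (lift (ex P R)) (lift (ex P' R')) X Y o p) :
    BF (lift R) (lift R') X Y o ∅ :=
  bf_map (fun _ _ hq => (piso_ex.1 hq).1) o ∅ (empty_subset _) (h.subset (empty_subset _))

theorem mem_Se {ε : ℕ → Bool} {k : ℕ} : 2 * k + 1 ∈ Se ε ↔ ε k = true := by
  constructor
  · rintro ⟨j, hj⟩
    cases h : ε j
    · rw [h] at hj
      simp only [Bool.toNat_false] at hj
      omega
    · rw [h] at hj
      simp only [Bool.toNat_true] at hj
      have : k = j := by omega
      rw [this]; exact h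
  · intro h
    exact ⟨k, by rw [h]; rfl⟩

theorem mem_Se' {ε : ℕ → Bool} {k : ℕ} : 2 * k ∈ Se ε ↔ ε k = false := by
  constructor
  · rintro ⟨j, hj⟩
    cases h : ε j
    · rw [h] at hj
      simp only [Bool.toNat_false] at hj
      have : k = j := by omega
      rw [this]; exact h
    · rw [h] at hj
      simp only [Bool.toNat_true] at hj
      omega
  · intro h
    exact ⟨k, by rw [h]; rfl⟩

theorem pick_Se (R : R2) (V : ℕ → R2) (ε : ℕ → Bool) (k : ℕ) :
    pick R V (Se ε) (some k) = V (2 * k + (ε k).toNat) := by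
  unfold pick
  simp only
  cases h : ε k
  · rw [if_neg (by rw [mem_Se, h]; simp), if_pos (mem_Se'.2 h)]
    rfl
  · rw [if_pos (mem_Se.2 h)]
    rfl

theorem pick_single (R : R2) (V : ℕ → R2) {s : ℕ} {j : ℕ} (h : s / 2 = j) :
    pick R V {s} (some j) = V s := by
  unfold pick
  simp only [mem_singleton_iff]
  by_cases h1 : 2 * j + 1 = s
  · rw [if_pos h1, h1]
  · rw [if_neg h1]
    have h2 : 2 * j = s := by omega
    rw [if_pos h2, h2]

/-- The type of `V s` on its class is that of the class in the structure with this class only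
replaced. -/
theorem type_single {Γ : Type} [Group Γ] {g : ℕ → Γ} (hg : Function.Surjective g) (h1 : S_FAM1)
    {α : Ordinal.{0}} {R : R2} {y d : ℕ → ℕ} {V : ℕ → R2} (hF : Fm g α R y d V) (s : ℕ) :
    Ob (FX R y d V {s}) (y (s / 2)) (d (s / 2)) = Ob R (y (s / 2)) (d (s / 2)) ∧
    IsoOn (lift (V s)) (lift (FX R y d V {s}))
      (Ob R (y (s / 2)) (d (s / 2))) (Ob R (y (s / 2)) (d (s / 2))) ∅ := by
  obtain ⟨F0, F1, F2, F3, F4, F5, F6⟩ := h1 Γ g hg α R y d V hF
  refine ⟨F3 {s} (s / 2), ?_⟩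
  have := F4 {s} (s / 2)
  rw [pick_single R V rfl] at this
  exact iso_red this

/-- The types of the variations are pairwise different. -/
theorem types_ne {Γ : Type} [Group Γ] {g : ℕ → Γ} (hg : Function.Surjective g) (h1 : S_FAM1)
    {α : Ordinal.{0}} {R : R2} {y d : ℕ → ℕ} {V : ℕ → R2} (hF : Fm g α R y d V)
    (hN : New R y d V) {s s' : ℕ} (hs : s' < s) :
    ¬ IsoOn (lift (V s')) (lift (V s))
      (Ob R (y (s' / 2)) (d (s' / 2))) (Ob R (y (s / 2)) (d (s / 2))) ∅ := by
  intro h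
  obtain ⟨e, h2⟩ := type_single hg h1 hF s'
  apply hN s {s'} (by rintro _ rfl; exact hs) (y (s' / 2)) (d (s' / 2))
  rw [e]
  exact iso_trans0 (iso_symm0 h2) h

theorem t_C1 (hG : S_GEO) (hT : S_TRQ) (h1 : S_FAM1) (h2 : S_FAM2) (h3 : S_SEQ) (hP : S_BP) :
    S_C1 := by
  intro Γ _ g hg α R y hmb hom hlt hFew
  rintro ⟨d, hBg, hdis⟩
  have GE := hG Γ g hg R hmb
  have hyk : ∀ k, y ∉ Ob R y (d k) := fun k h => (hBg k).1 ((GE.out y (d k)).1.1 h)
  have hD : ∀ j k, j ≠ k → Disjoint (Ob R y (d j)) (Ob R y (d k)) := by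
    intro j k hjk
    rw [Set.disjoint_left]
    intro x hx hx'
    apply hdis j k hjk
    rw [← GE.eqv y (d k) x hx', GE.eqv y (d j) x hx]
    exact GE.self y (d j)
  obtain ⟨V, hFm, hNew⟩ := h3 Γ g hg α R (fun _ => y) d hmb hom (fun j k => hyk k) hD
    (fun k => (hBg k).2)
  obtain ⟨F0, F1, F2, F3, F4, F5, F6⟩ := h1 Γ g hg α R (fun _ => y) d V hFm
  have key : ∀ (ε ε' : ℕ → Bool) (k : ℕ), ε k = true → ε' k = false →
      ¬ IsoOn (lift (FX R (fun _ => y) d V (Se ε))) (lift (FX R (fun _ => y) d V (Se ε')))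
        univ univ {(y, y)} := by
    intro ε ε' k hk hk' hiso
    obtain ⟨q, hq1, hq2, hq3, hq4, hq5⟩ := hiso
    obtain ⟨v, hv⟩ := hq4 (d k) (mem_univ _)
    have hyq : (y, y) ∈ q := hq1 (mem_singleton _)
    have i1 := hT.2.2.2.1 _ _ q y y (d k) v ⟨q, Subset.rfl, hq2, hq3, hq4, hq5⟩ hyq hv
    have i2 := iso_red i1
    rw [F3] at i2
    have i3 := iso_red (F4 (Se ε) k)
    rw [pick_Se, hk] at i3
    have i4 := iso_trans0 i3 i2
    simp only [Bool.toNat_true] at i4
    have hs : (2 * k + 1) / 2 = k := by omega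
    have GE' := hG Γ g hg _ (F2 (Se ε'))
    by_cases hvj : ∃ j, v ∈ Ob R y (d j)
    · obtain ⟨j, hj⟩ := hvj
      have e1 : Ob (FX R (fun _ => y) d V (Se ε')) y v = Ob R y (d j) := by
        have e2 := F3 (Se ε') j
        rw [← e2] at hj
        rw [GE'.eqv y (d j) v hj]
        exact e2
      rw [e1] at i4
      have i5 := iso_red (F4 (Se ε') j)
      rw [pick_Se] at i5
      have i6 := iso_trans0 i4 (iso_symm0 i5)
      obtain ⟨s', hs'⟩ : ∃ s', s' = 2 * j + (ε' j).toNat := ⟨_, rfl⟩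
      rw [← hs'] at i6
      have hb : (ε' j).toNat ≤ 1 := Bool.toNat_le _
      have hs2 : s' / 2 = j := by omega
      have hne : s' ≠ 2 * k + 1 := by
        intro h
        have h4 : j = k := by omega
        rw [h4, hk'] at hs'
        simp only [Bool.toNat_false] at hs'
        omega
      rcases lt_or_gt_of_ne hne with h | h
      · have := types_ne hg h1 hFm hNew h
        simp only [hs, hs2] at this
        exact this (iso_symm0 i6)
      · have := types_ne hg h1 hFm hNew h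
        simp only [hs, hs2] at this
        exact this i6
    · push Not at hvj
      have hdj : ∀ j, Disjoint (Ob (FX R (fun _ => y) d V (Se ε')) y v) (Ob R y (d j)) := by
        intro j
        rw [Set.disjoint_left]
        intro x hx hx'
        have e2 := F3 (Se ε') j
        apply hvj j
        have hx2 : x ∈ Ob (FX R (fun _ => y) d V (Se ε')) y (d j) := by
          rw [e2]; exact hx'
        rw [← e2, ← GE'.eqv y (d j) x hx2, GE'.eqv y v x hx]
        exact GE'.self y v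
      obtain ⟨-, i5⟩ := h2 Γ g hg α R (fun _ => y) d V hFm (Se ε') ∅ univ
        (fun k hk => absurd (mem_univ k) hk) y v (fun j _ => hvj j)
      have i6 := i5 (fun j _ => hdj j)
      have i7 := iso_trans0 i4 i6
      have := hNew (2 * k + 1) ∅ (fun s' h => absurd h (notMem_empty _)) y v
      rw [hs] at this
      exact this (iso_symm0 i7)
  have hK : MeasurableSet {W : R2 | BF (lift R) (lift W) univ univ α ∅} := by
    have hlift : Measurable (lift : R2 → St ar) := measurable_const.prodMk measurable_id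
    exact msg ar (lift R) univ R2 lift (fun _ => univ) hlift (fun z => by simp) α hlt ∅
  have hunc : ¬ Countable (ℕ → Bool) := Pool.Agent.H899R2.VP.not_countable_cantor
  have hBF : ∀ ε : ℕ → Bool, BF (lift R) (lift (FX R (fun _ => y) d V (Se ε))) univ univ α ∅ := by
    intro ε
    have h := bf_red (F1 ∅ (Se ε) univ (fun k hk => absurd (mem_univ k) hk))
    rw [F5] at h
    exact h
  refine hP {W : R2 | BF (lift R) (lift W) univ univ α ∅} hK hFew (ℕ → Bool) hunc
    (fun ε => FX R (fun _ => y) d V (Se ε)) (fun _ => y) F6.measurable measurable_const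
    hBF ?_
  intro ε ε' hiso
  by_contra hne
  obtain ⟨k, hk⟩ := Function.ne_iff.1 hne
  cases h : ε k
  · cases h' : ε' k
    · exact hk (h.trans h'.symm)
    · refine key ε' ε k h' h ?_
      have := hiso.symm
      exact this.mono (by rintro _ rfl; exact mem_singleton _)
  · cases h' : ε' k
    · exact key ε ε' k h h' hiso
    · exact hk (h.trans h'.symm)

end Pool.Agent.Y692.TF
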